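import Pool.Agent.Lib.MP_a5fab4_co.LowerRamsey

/-!
Disproof of the formula `s(ℓ,m) = 2(ℓ+m) - 1` in the range `⌊m/2⌋ ≤ ℓ ≤ m`.

The witness is `(ℓ,m) = (4,9)`: the split graph with clique part of size 15, independent part of
size 10, in which every independent vertex has 9 neighbours and every clique vertex has at most 6
independent neighbours, has order 25, independent domination number at least 5, and no maximal
clique with fewer than 10 vertices.
-/

set_option autoImplicit false

namespace Pool.Agent.Results.MP_a5fab4_co.Disproof

open Pool.Agent.LowerRamsey

/-- The conjectured formula for the lower Ramsey numbers in the balanced range is false: it is not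
true that for all positive integers `ℓ, m` with `⌊m/2⌋ ≤ ℓ ≤ m` the largest order `n` such that
every graph of order `n` satisfies `i(G) ≤ ℓ` or `μ(G) ≤ m` is `2(ℓ+m) - 1`. -/
theorem result :
    ¬ (∀ l m : ℕ, 0 < l → 0 < m → m / 2 ≤ l → l ≤ m →
        IsGreatest (goodOrders l m) (2 * (l + m) - 1)) := by
  intro h
  have h1 := h 4 9 (by norm_num) (by norm_num) (by norm_num) (by norm_num)
  exact not_mem_goodOrders_of_le (l := 4) (m := 9) (k := 12) (by norm_num) (by norm_num)
    (by norm_num) (by norm_num) h1.1

end Pool.Agent.Results.MP_a5fab4_co.Disproof
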