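import Pool.Agent.Lib.MP_a5fab4_co.Exact

/-!
The exact value of all lower Ramsey numbers: `s(ℓ,m) = ℓ + m + ⌈2 √(ℓ m)⌉ - 1`.
-/

set_option autoImplicit false

namespace Pool.Agent.Results.MP_a5fab4_co.ExactValue

open Pool.Agent.LowerRamsey

/-- `k ≥ ⌈2 √(ℓ m)⌉` if and only if `k² ≥ 4 ℓ m`. -/
theorem ceil_le_iff (l m k : ℕ) :
    ⌈2 * Real.sqrt ((l : ℝ) * (m : ℝ))⌉₊ ≤ k ↔ 4 * (l * m) ≤ k * k := by
  rw [Nat.ceil_le]
  have h0 : (0 : ℝ) ≤ (l : ℝ) * (m : ℝ) := by positivity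
  have h1 := Real.mul_self_sqrt h0
  have h2 := Real.sqrt_nonneg ((l : ℝ) * (m : ℝ))
  constructor
  · intro h
    have h3 : (2 * Real.sqrt ((l : ℝ) * (m : ℝ))) * (2 * Real.sqrt ((l : ℝ) * (m : ℝ))) ≤
        (k : ℝ) * (k : ℝ) := mul_le_mul h h (by positivity) (by positivity)
    have h4 : 4 * ((l : ℝ) * (m : ℝ)) ≤ (k : ℝ) * (k : ℝ) := by nlinarith
    exact_mod_cast h4
  · intro h
    have h4 : 4 * ((l : ℝ) * (m : ℝ)) ≤ (k : ℝ) * (k : ℝ) := by exact_mod_cast h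
    apply le_of_sq_le_sq _ (Nat.cast_nonneg k)
    nlinarith

/-- For all positive integers `ℓ, m` the orders `n` such that every graph `G` of order `n` satisfies
`i(G) ≤ ℓ` or `μ(G) ≤ m` are exactly the `n < ℓ + m + ⌈2 √(ℓ m)⌉`. So the lower Ramsey number is
`s(ℓ,m) = ℓ + m + ⌈2 √(ℓ m)⌉ - 1`, and it is equal to `2 (ℓ + m) - 1` if and only if
`(√m - √ℓ)² < 1`. -/
theorem result (l m : ℕ) (hl : 0 < l) (hm : 0 < m) :
    (∀ n : ℕ, n ∈ goodOrders l m ↔ n < l + m + ⌈2 * Real.sqrt ((l : ℝ) * (m : ℝ))⌉₊) ∧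
      IsGreatest (goodOrders l m) (l + m + ⌈2 * Real.sqrt ((l : ℝ) * (m : ℝ))⌉₊ - 1) ∧
      lowerRamsey l m = l + m + ⌈2 * Real.sqrt ((l : ℝ) * (m : ℝ))⌉₊ - 1 ∧
      (IsGreatest (goodOrders l m) (2 * (l + m) - 1) ↔
        (Real.sqrt (m : ℝ) - Real.sqrt (l : ℝ)) ^ 2 < 1) := by
  have h1 : ∀ n : ℕ, n ∈ goodOrders l m ↔
      n < l + m + ⌈2 * Real.sqrt ((l : ℝ) * (m : ℝ))⌉₊ := by
    intro n
    constructor
    · intro hn
      by_contra hcon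
      exact not_mem_goodOrders_of_le hl hm ((ceil_le_iff l m _).1 le_rfl) (not_lt.1 hcon) hn
    · intro hn
      by_contra hcon
      obtain ⟨k, hk, hkn⟩ := exists_of_not_mem_goodOrders hcon
      have := (ceil_le_iff l m k).2 hk
      omega
  have h2 : IsGreatest (goodOrders l m) (l + m + ⌈2 * Real.sqrt ((l : ℝ) * (m : ℝ))⌉₊ - 1) := by
    refine ⟨(h1 _).2 (by omega), fun n hn => ?_⟩
    have := (h1 n).1 hn
    omega
  refine ⟨h1, h2, (isGreatest_lowerRamsey hl hm).unique h2, ?_⟩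
  have hl0 : (0 : ℝ) ≤ l := Nat.cast_nonneg l
  have hm0 : (0 : ℝ) ≤ m := Nat.cast_nonneg m
  have e1 := Real.sq_sqrt hl0
  have e2 := Real.sq_sqrt hm0
  have e3 : Real.sqrt ((l : ℝ) * (m : ℝ)) = Real.sqrt l * Real.sqrt m := Real.sqrt_mul hl0 _
  have h3 : ⌈2 * Real.sqrt ((l : ℝ) * (m : ℝ))⌉₊ ≤ l + m := by
    rw [ceil_le_iff]
    have : (0 : ℤ) ≤ ((l : ℤ) - m) ^ 2 := sq_nonneg _
    zify
    nlinarith
  constructor
  · intro h
    have h4 := h2.unique h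
    have h5 : l + m - 1 < ⌈2 * Real.sqrt ((l : ℝ) * (m : ℝ))⌉₊ := by omega
    rw [Nat.lt_ceil, Nat.cast_sub (by omega), e3] at h5
    push_cast at h5
    nlinarith
  · intro h
    have h5 : l + m - 1 < ⌈2 * Real.sqrt ((l : ℝ) * (m : ℝ))⌉₊ := by
      rw [Nat.lt_ceil, Nat.cast_sub (by omega), e3]
      push_cast
      nlinarith
    have h6 : l + m + ⌈2 * Real.sqrt ((l : ℝ) * (m : ℝ))⌉₊ - 1 = 2 * (l + m) - 1 := by omega
    rw [← h6]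
    exact h2

end Pool.Agent.Results.MP_a5fab4_co.ExactValue
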